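import Mathlib
import Pool.Agent.Q31.BF.Final
import Pool.Agent.Q187.FInt.Flip

/-!
# MP_57deef_al: Thompson's group `F` is not integrable

No group has commutator subgroup isomorphic to Thompson's group `F`.
-/

set_option autoImplicit false

namespace Pool.Agent.Results.MP_57deef_al.NotIntegrable

open Q31.BF

universe u

/-- **Thompson's group `F` has no integral**: there is no group `H` (in any universe) whose
commutator subgroup `[H,H]` is isomorphic to Thompson's group `F`, the group of all orientation
preserving piecewise linear homeomorphisms of `[0,1]` with finitely many breakpoints, all dyadic,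
and all slopes integer powers of two. -/
theorem result : ¬ ∃ (H : Type u) (_ : Group H), Nonempty (commutator H ≃* ThompsonF) := by
  rintro ⟨H, _, ⟨φ⟩⟩
  have e : ThompsonF = Pool.Agent.Helper283.PL.Sup 0 1 := by
    ext σ
    exact isThompson_iff σ
  exact (Q187.FInt.not_integrable H).false (φ.trans (MulEquiv.subgroupCongr e))

end Pool.Agent.Results.MP_57deef_al.NotIntegrable
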